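import Mathlib

set_option autoImplicit false

open scoped Pointwise

namespace Pool.Agent.W343.Liou

section defs

variable {G : Type} [Group G] {Y : Type} [MulAction G Y]

/-- The transition probability from `y` to `z`: the sum of `μ g` over all `g` with `g y = z`. -/
noncomputable def transition (μ : G → ℝ) (y z : Y) : ℝ := ∑' g : {g : G | g • y = z}, μ g

/-- `f` is `μ`-harmonic. -/
def Harmonic (μ : G → ℝ) (f : Y → ℝ) : Prop := ∀ y, f y = ∑' z, f z * transition μ y z

end defs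

theorem expand {G : Type} [Group G] {Y : Type} [MulAction G Y] {J : Type} (h : J → G) (w : J → ℝ)
    (hw : ∀ j, 0 ≤ w j) (hs : Summable w) (f : Y → ℝ) (M : ℝ) (hf : ∀ y, |f y| ≤ M) (y : Y) :
    ∑' z, f z * transition (fun g => ∑' j : h ⁻¹' {g}, w j) y z = ∑' j, w j * f (h j • y) := by
  have hF : Summable (fun j => w j * f (h j • y)) := by
    refine Summable.of_norm_bounded (g := fun j => w j * M) (hs.mul_right M) ?_
    intro j
    rw [Real.norm_eq_abs, abs_mul, abs_of_nonneg (hw j)]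
    exact mul_le_mul_of_nonneg_left (hf _) (hw j)
  have h1 := hF.hasSum.tsum_fiberwise h
  have h2 : (fun g => ∑' j : h ⁻¹' {g}, w j * f (h j • y)) =
      fun g => (∑' j : h ⁻¹' {g}, w j) * f (g • y) := by
    funext g
    rw [← tsum_mul_right]
    refine tsum_congr ?_
    rintro ⟨j, hj⟩
    have : h j = g := hj
    simp only [this]
  rw [h2] at h1
  have h3 := h1.tsum_fiberwise (fun g => g • y)
  rw [← h3.tsum_eq]
  refine tsum_congr ?_
  intro z
  unfold transition
  rw [← tsum_mul_left]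
  refine tsum_congr ?_
  rintro ⟨g, hg⟩
  have : g • y = z := hg
  simp only [this]
  ring

/-- weights -/
noncomputable def a (i : ℕ) : ℝ := (1 / 2 : ℝ) ^ (i ^ 2)

theorem a_zero : a 0 = 1 := by simp [a]

theorem a_pos (i : ℕ) : 0 < a i := by unfold a; positivity

theorem a_succ (i : ℕ) : a (i + 1) = a i * (1 / 2 : ℝ) ^ (2 * i + 1) := by
  unfold a
  rw [← pow_add]
  congr 1
  ring

theorem a_succ_lt (i : ℕ) : a (i + 1) ≤ a i := by
  rw [a_succ]
  have : (1 / 2 : ℝ) ^ (2 * i + 1) ≤ 1 := pow_le_one₀ (by norm_num) (by norm_num)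
  nlinarith [a_pos i]

theorem a_succ_lt' (i : ℕ) : a (i + 1) < a i := by
  rw [a_succ]
  have : (1 / 2 : ℝ) ^ (2 * i + 1) < 1 := pow_lt_one₀ (by norm_num) (by norm_num) (by omega)
  nlinarith [a_pos i]

theorem a_tendsto : Filter.Tendsto a Filter.atTop (nhds 0) := by
  have h : Filter.Tendsto (fun n : ℕ => (1 / 2 : ℝ) ^ n) Filter.atTop (nhds 0) :=
    tendsto_pow_atTop_nhds_zero_of_lt_one (by norm_num) (by norm_num)
  have h2 : Filter.Tendsto (fun n : ℕ => n ^ 2) Filter.atTop Filter.atTop :=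
    Filter.tendsto_pow_atTop (by norm_num)
  exact h.comp h2

/-- the mass of block `i` -/
noncomputable def c (i : ℕ) : ℝ := a i - a (i + 1)

theorem c_pos (i : ℕ) : 0 < c i := sub_pos.mpr (a_succ_lt' i)

theorem tail_hasSum (n : ℕ) : HasSum (fun i => c (i + n)) (a n) := by
  have h : ∀ N, ∑ i ∈ Finset.range N, c (i + n) = a n - a (N + n) := by
    intro N
    induction N with
    | zero => simp
    | succ N ih =>
      rw [Finset.sum_range_succ, ih]
      unfold c
      have : N + 1 + n = N + n + 1 := by ring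
      rw [this]
      ring
  rw [hasSum_iff_tendsto_nat_of_nonneg (fun i => (c_pos _).le)]
  simp only [h]
  have h1 : Filter.Tendsto (fun N => a (N + n)) Filter.atTop (nhds 0) :=
    (Filter.tendsto_add_atTop_iff_nat n).mpr a_tendsto
  have h2 := h1.const_sub (a n)
  simpa using h2

theorem c_hasSum : HasSum c 1 := by
  have := tail_hasSum 0
  simpa [a_zero] using this

theorem head_sum (n : ℕ) : ∑ i ∈ Finset.range n, c i = 1 - a n := by
  induction n with
  | zero => simp [a_zero]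
  | succ n ih => rw [Finset.sum_range_succ, ih]; unfold c; ring

/-- The main estimate. -/
theorem main_estimate {Y : Type} (f : Y → ℝ) (M : ℝ) (hf : ∀ y, |f y| ≤ M)
    (Z : ℕ → Set Y) (hZ : Monotone Z) (hZu : ∀ y, ∃ i, y ∈ Z i)
    (B : ℕ → Y → ℝ) (hB : ∀ y, f y = ∑' i, c i * B i y) (hBM : ∀ i y, |B i y| ≤ M)
    (hlt : ∀ (D : ℝ) (i l : ℕ), l < i → (∀ y ∈ Z i, ∀ z ∈ Z i, |f y - f z| ≤ D) →
      ∀ y ∈ Z i, ∀ z ∈ Z i, |B l y - B l z| ≤ D)
    (heq : ∀ (D : ℝ) (i : ℕ), (∀ y ∈ Z i, ∀ z ∈ Z i, |f y - f z| ≤ D) →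
      ∀ y ∈ Z i, ∀ z ∈ Z i, |B i y - B i z| ≤ D / 2)
    (y z : Y) : f y = f z := by
  have hsum : ∀ y, Summable (fun i => c i * B i y) := by
    intro y
    refine Summable.of_norm_bounded (g := fun i => c i * M) (c_hasSum.summable.mul_right M) ?_
    intro i
    rw [Real.norm_eq_abs, abs_mul, abs_of_pos (c_pos i)]
    exact mul_le_mul_of_nonneg_left (hBM i y) (c_pos i).le
  have hM : 0 ≤ M := (abs_nonneg _).trans (hf y)
  -- the one-step estimate
  have step : ∀ (D : ℝ) (i : ℕ), (∀ y ∈ Z i, ∀ z ∈ Z i, |f y - f z| ≤ D) →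
      ∀ y ∈ Z i, ∀ z ∈ Z i, |f y - f z| ≤ (1 - a i) * D + c i * (D / 2) + a (i + 1) * (2 * M) := by
    intro D i hD y hy z hz
    rw [hB y, hB z, ← (hsum y).tsum_sub (hsum z)]
    have hs2 : Summable (fun l => c l * B l y - c l * B l z) := (hsum y).sub (hsum z)
    rw [← hs2.sum_add_tsum_nat_add (i + 1), Finset.sum_range_succ]
    have e1 : |∑ l ∈ Finset.range i, (c l * B l y - c l * B l z)| ≤ (1 - a i) * D := by
      rw [← head_sum, Finset.sum_mul]
      refine (Finset.abs_sum_le_sum_abs _ _).trans (Finset.sum_le_sum ?_)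
      intro l hl
      rw [← mul_sub, abs_mul, abs_of_pos (c_pos l)]
      exact mul_le_mul_of_nonneg_left (hlt D i l (Finset.mem_range.mp hl) hD y hy z hz) (c_pos l).le
    have e2 : |c i * B i y - c i * B i z| ≤ c i * (D / 2) := by
      rw [← mul_sub, abs_mul, abs_of_pos (c_pos i)]
      exact mul_le_mul_of_nonneg_left (heq D i hD y hy z hz) (c_pos i).le
    have e3 : |∑' l, (c (l + (i + 1)) * B (l + (i + 1)) y - c (l + (i + 1)) * B (l + (i + 1)) z)|
        ≤ a (i + 1) * (2 * M) := by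
      have h1 := (tail_hasSum (i + 1)).mul_right (2 * M)
      rw [← h1.tsum_eq, ← Real.norm_eq_abs]
      refine tsum_of_norm_bounded h1 ?_ |>.trans_eq h1.tsum_eq.symm
      intro l
      rw [← mul_sub, Real.norm_eq_abs, abs_mul, abs_of_pos (c_pos _)]
      refine mul_le_mul_of_nonneg_left ?_ (c_pos _).le
      have t1 := hBM (l + (i + 1)) y
      have t2 := hBM (l + (i + 1)) z
      rw [abs_le] at t1 t2 ⊢
      constructor <;> linarith
    refine (abs_add_le _ _).trans (add_le_add ((abs_add_le _ _).trans (add_le_add e1 e2)) e3)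
  -- the sup
  have key : ∀ i, ∀ y ∈ Z i, ∀ z ∈ Z i, |f y - f z| ≤ 4 * M * (1 / 2 : ℝ) ^ (2 * i + 1) := by
    intro i y hy z hz
    let S : Set ℝ := {r | ∃ y ∈ Z i, ∃ z ∈ Z i, r = |f y - f z|}
    have hSne : S.Nonempty := ⟨_, y, hy, z, hz, rfl⟩
    have hSb : BddAbove S := by
      refine ⟨2 * M, ?_⟩
      rintro _ ⟨y, -, z, -, rfl⟩
      have t1 := hf y
      have t2 := hf z
      rw [abs_le] at t1 t2 ⊢
      constructor <;> linarith
    have hD : ∀ y ∈ Z i, ∀ z ∈ Z i, |f y - f z| ≤ sSup S := by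
      intro y hy z hz
      exact le_csSup hSb ⟨y, hy, z, hz, rfl⟩
    have hstep := step (sSup S) i hD
    have hle : sSup S ≤ (1 - a i) * sSup S + c i * (sSup S / 2) + a (i + 1) * (2 * M) := by
      refine csSup_le hSne ?_
      rintro _ ⟨y, hy, z, hz, rfl⟩
      exact hstep y hy z hz
    refine (hD y hy z hz).trans ?_
    have hai := a_pos i
    have hq : 0 < (1 / 2 : ℝ) ^ (2 * i + 1) := by positivity
    have hS0 : 0 ≤ sSup S := (abs_nonneg _).trans (hD y hy z hz)
    unfold c at hle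
    rw [a_succ] at hle
    set q : ℝ := (1 / 2 : ℝ) ^ (2 * i + 1) with hqdef
    -- a (D/2)(1+q) ≤ 2 M a q
    have h1 : a i * sSup S * (1 + q) / 2 ≤ a i * q * (2 * M) := by nlinarith
    have h2 : sSup S * (1 + q) / 2 ≤ q * (2 * M) := by
      have h3 : a i * (sSup S * (1 + q) / 2) ≤ a i * (q * (2 * M)) := by nlinarith
      exact le_of_mul_le_mul_left h3 hai
    nlinarith
  -- conclude
  obtain ⟨i₁, hi₁⟩ := hZu y
  obtain ⟨i₂, hi₂⟩ := hZu z
  have hlim : Filter.Tendsto (fun i : ℕ => 4 * M * (1 / 2 : ℝ) ^ (2 * i + 1)) Filter.atTop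
      (nhds (4 * M * 0)) := by
    refine Filter.Tendsto.const_mul _ ?_
    have h : Filter.Tendsto (fun n : ℕ => (1 / 2 : ℝ) ^ n) Filter.atTop (nhds 0) :=
      tendsto_pow_atTop_nhds_zero_of_lt_one (by norm_num) (by norm_num)
    refine h.comp ?_
    refine Filter.tendsto_atTop_mono (fun n => ?_) Filter.tendsto_id
    simp only [id]; omega
  rw [mul_zero] at hlim
  have hle0 : |f y - f z| ≤ 0 := by
    refine ge_of_tendsto hlim ?_
    filter_upwards [Filter.eventually_ge_atTop (max i₁ i₂)] with i hi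
    exact key i y (hZ ((le_max_left _ _).trans hi) hi₁) z (hZ ((le_max_right _ _).trans hi) hi₂)
  have := abs_eq_zero.mp (le_antisymm hle0 (abs_nonneg _))
  linarith

end Pool.Agent.W343.Liou
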