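import Mathlib
import Pool.Agent.W343.Liou1

set_option autoImplicit false

open scoped Pointwise

namespace Pool.Agent.W343.Liou

theorem move_subsets {X : Type} [DecidableEq X] (p : X → Prop) [DecidablePred p]
    (E F : Finset X) (hE : ∀ x ∈ E, p x) (hF : ∀ x ∈ F, p x) (hc : E.card = F.card) :
    ∃ τ : Equiv.Perm {x // p x}, E.image (Equiv.Perm.ofSubtype τ) = F := by
  have hE0 : (E.subtype p).card = E.card := by
    rw [Finset.card_subtype, Finset.filter_true_of_mem hE]
  have hF0 : (F.subtype p).card = E.card := by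
    rw [Finset.card_subtype, Finset.filter_true_of_mem hF, hc]
  have := Set.powersetCard.isPretransitive (α := {x // p x}) (n := E.card)
  obtain ⟨τ, hτ⟩ := this.exists_smul_eq ⟨E.subtype p, hE0⟩ ⟨F.subtype p, hF0⟩
  have h2 : τ • (E.subtype p) = F.subtype p := by
    have := congrArg Subtype.val hτ
    simpa using this
  refine ⟨τ, ?_⟩
  ext x
  simp only [Finset.mem_image]
  constructor
  · rintro ⟨e, he, rfl⟩
    have he' : (⟨e, hE e he⟩ : {x // p x}) ∈ E.subtype p := by simpa using he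
    have h3 : τ ⟨e, hE e he⟩ ∈ F.subtype p := by
      rw [← h2]
      exact Finset.smul_mem_smul_finset he'
    rw [Equiv.Perm.ofSubtype_apply_of_mem τ (hE e he)]
    simpa using h3
  · intro hx
    have hx' : (⟨x, hF x hx⟩ : {x // p x}) ∈ τ • (E.subtype p) := by
      rw [h2]; simpa using hx
    obtain ⟨e, he, hex⟩ := Finset.mem_smul_finset.mp hx'
    refine ⟨e, by simpa using he, ?_⟩
    rw [Equiv.Perm.ofSubtype_apply_of_mem τ e.2]
    have : τ e = ⟨x, hF x hx⟩ := hex
    rw [show (⟨(e : X), e.2⟩ : {x // p x}) = e from rfl, this]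

section

variable {G : Type} [Group G] {X : Type} [DecidableEq X] [MulAction G X]
  (lev : X → ℕ) (g : ℕ → G) (m : ℕ → ℕ)
  (φ : ∀ j, Equiv.Perm {x : X // lev x ≤ j} →* G)

/-- the index set -/
abbrev J : Type := Σ i : ℕ, (Bool ⊕ Equiv.Perm {x : X // lev x ≤ m i})

/-- the group elements -/
def hh : J lev m → G
  | ⟨i, Sum.inl true⟩ => g i
  | ⟨i, Sum.inl false⟩ => (g i)⁻¹
  | ⟨i, Sum.inr k⟩ => φ (m i) k

/-- the weights -/
noncomputable def ww : J lev m → ℝ
  | ⟨i, Sum.inl _⟩ => c i / 4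
  | ⟨i, Sum.inr _⟩ => c i / (2 * Nat.card (Equiv.Perm {x : X // lev x ≤ m i}))

/-- the measure -/
noncomputable def mu : G → ℝ := fun x => ∑' j : (hh lev g m φ) ⁻¹' {x}, ww lev m j

/-- averages over a block -/
noncomputable def BB {Y : Type} [MulAction G Y] (f : Y → ℝ) (i : ℕ) (y : Y) : ℝ :=
  (f (g i • y) + f ((g i)⁻¹ • y)) / 4 +
    (∑ᶠ k : Equiv.Perm {x : X // lev x ≤ m i}, f (φ (m i) k • y)) /
      (2 * Nat.card (Equiv.Perm {x : X // lev x ≤ m i}))

end

section

variable {G : Type} [Group G] {X : Type} [DecidableEq X] [MulAction G X]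
  (lev : X → ℕ) (hfin : ∀ j, Finite {x : X // lev x ≤ j})
  (g : ℕ → G) (m : ℕ → ℕ)
  (φ : ∀ j, Equiv.Perm {x : X // lev x ≤ j} →* G)

include hfin

theorem card_pos' (i : ℕ) : (0 : ℝ) < Nat.card (Equiv.Perm {x : X // lev x ≤ m i}) := by
  have := hfin (m i)
  exact_mod_cast Nat.card_pos

theorem ww_pos (j : J lev m) : 0 < ww lev m j := by
  rcases j with ⟨i, b | k⟩
  · have := c_pos i
    simp only [ww]; positivity
  · have := c_pos i
    have h2 := card_pos' lev hfin m i
    simp only [ww]; positivity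

theorem sum_block (i : ℕ) (F : (Bool ⊕ Equiv.Perm {x : X // lev x ≤ m i}) → ℝ) :
    ∑' t, ww lev m ⟨i, t⟩ * F t = c i * ((F (Sum.inl true) + F (Sum.inl false)) / 4 +
      (∑ᶠ k, F (Sum.inr k)) / (2 * Nat.card (Equiv.Perm {x : X // lev x ≤ m i}))) := by
  have := hfin (m i)
  have := Fintype.ofFinite {x : X // lev x ≤ m i}
  rw [tsum_fintype, Fintype.sum_sum_type, finsum_eq_sum_of_fintype]
  simp only [ww, Fintype.sum_bool, ← Finset.mul_sum]
  have h2 := card_pos' lev hfin m i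
  field_simp

theorem block_hasSum (i : ℕ) : HasSum (fun t => ww lev m ⟨i, t⟩) (c i) := by
  have hf := hfin (m i)
  have hf' := Fintype.ofFinite {x : X // lev x ≤ m i}
  have h1 := sum_block lev hfin m i (fun _ => 1)
  simp only [mul_one] at h1
  have h3 : c i * ((1 + 1) / 4 + (∑ᶠ _ : Equiv.Perm {x : X // lev x ≤ m i}, (1 : ℝ)) /
      (2 * Nat.card (Equiv.Perm {x : X // lev x ≤ m i}))) = c i := by
    have h2 := card_pos' lev hfin m i
    rw [finsum_eq_sum_of_fintype]
    simp only [Finset.sum_const, Finset.card_univ, nsmul_eq_mul, mul_one]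
    rw [Nat.card_eq_fintype_card] at h2 ⊢
    field_simp
    ring
  have hsb : Summable (fun t => ww lev m ⟨i, t⟩) := by
    have : Finite (Bool ⊕ Equiv.Perm {x : X // lev x ≤ m i}) := inferInstance
    exact (hasSum_fintype _).summable
  have := hsb.hasSum
  rwa [h1, h3] at this

theorem ww_summable : Summable (ww lev m) := by
  rw [summable_sigma_of_nonneg (fun j => (ww_pos lev hfin m j).le)]
  refine ⟨fun i => (block_hasSum lev hfin m i).summable, ?_⟩
  have : (fun i => ∑' t, ww lev m ⟨i, t⟩) = c := by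
    funext i
    exact (block_hasSum lev hfin m i).tsum_eq
  rw [this]
  exact c_hasSum.summable

theorem ww_hasSum : HasSum (ww lev m) 1 := by
  have h := (ww_summable lev hfin m).hasSum
  have h2 := h.sigma (fun i => block_hasSum lev hfin m i)
  have h3 := h2.unique c_hasSum
  rwa [h3] at h

theorem mu_hasSum : HasSum (mu lev g m φ) 1 :=
  (ww_hasSum lev hfin m).tsum_fiberwise (hh lev g m φ)

theorem mu_pos (hg : Function.Surjective g) (x : G) : 0 < mu lev g m φ x := by
  obtain ⟨i, rfl⟩ := hg x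
  have hs : Summable (fun j : (hh lev g m φ) ⁻¹' {g i} => ww lev m j) :=
    (ww_summable lev hfin m).subtype _
  refine hs.tsum_pos (fun j => (ww_pos lev hfin m j).le) ⟨⟨i, Sum.inl true⟩, rfl⟩ ?_
  exact ww_pos lev hfin m _

/-- the involution of the index set -/
def inv' : J lev m ≃ J lev m :=
  Equiv.sigmaCongrRight (fun _ => Equiv.sumCongr Equiv.boolNot (Equiv.inv _))

omit hfin in
theorem hh_inv (j : J lev m) : hh lev g m φ (inv' lev m j) = (hh lev g m φ j)⁻¹ := by
  rcases j with ⟨i, (_ | _) | k⟩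
  · simp [inv', hh]
  · simp [inv', hh]
  · simp [inv', hh]

omit hfin in
theorem ww_inv (j : J lev m) : ww lev m (inv' lev m j) = ww lev m j := by
  rcases j with ⟨i, (_ | _) | k⟩ <;> rfl

omit hfin in
theorem mu_inv (x : G) : mu lev g m φ x⁻¹ = mu lev g m φ x := by
  unfold mu
  let e : ((hh lev g m φ) ⁻¹' {x}) ≃ ((hh lev g m φ) ⁻¹' {x⁻¹}) :=
    (inv' lev m).subtypeEquiv (fun j => by
      simp only [Set.mem_preimage, Set.mem_singleton_iff]
      rw [hh_inv]
      exact inv_inj.symm)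
  rw [← e.tsum_eq]
  refine tsum_congr ?_
  rintro ⟨j, hj⟩
  exact ww_inv lev m j

theorem harmonic_form {Y : Type} [MulAction G Y] (f : Y → ℝ) (M : ℝ) (hf : ∀ y, |f y| ≤ M)
    (hh' : Harmonic (mu lev g m φ) f) (y : Y) : f y = ∑' i, c i * BB lev g m φ f i y := by
  have h1 := expand (hh lev g m φ) (ww lev m) (fun j => (ww_pos lev hfin m j).le)
    (ww_summable lev hfin m) f M hf y
  rw [hh' y]
  refine h1.trans ?_
  have hF : Summable (fun j => ww lev m j * f (hh lev g m φ j • y)) := by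
    refine Summable.of_norm_bounded (g := fun j => ww lev m j * M)
      ((ww_summable lev hfin m).mul_right M) ?_
    intro j
    rw [Real.norm_eq_abs, abs_mul, abs_of_pos (ww_pos lev hfin m j)]
    exact mul_le_mul_of_nonneg_left (hf _) (ww_pos lev hfin m j).le
  rw [hF.tsum_sigma]
  refine tsum_congr ?_
  intro i
  rw [sum_block lev hfin m i (fun t => f (hh lev g m φ ⟨i, t⟩ • y))]
  rfl

theorem BB_bound {Y : Type} [MulAction G Y] (f : Y → ℝ) (M : ℝ) (hf : ∀ y, |f y| ≤ M) (i : ℕ)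
    (y : Y) : |BB lev g m φ f i y| ≤ M := by
  have hf0 := hfin (m i)
  have hf' := Fintype.ofFinite {x : X // lev x ≤ m i}
  have h2 := card_pos' lev hfin m i
  unfold BB
  have e1 : |(f (g i • y) + f ((g i)⁻¹ • y)) / 4| ≤ M / 2 := by
    have t1 := hf (g i • y)
    have t2 := hf ((g i)⁻¹ • y)
    rw [abs_le] at t1 t2 ⊢
    constructor <;> linarith
  have e2 : |(∑ᶠ k : Equiv.Perm {x : X // lev x ≤ m i}, f (φ (m i) k • y)) /
      (2 * Nat.card (Equiv.Perm {x : X // lev x ≤ m i}))| ≤ M / 2 := by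
    rw [finsum_eq_sum_of_fintype, abs_div, abs_of_pos (by positivity : (0 : ℝ) <
      2 * Nat.card (Equiv.Perm {x : X // lev x ≤ m i})), div_le_iff₀ (by positivity)]
    refine (Finset.abs_sum_le_sum_abs _ _).trans ?_
    refine (Finset.sum_le_sum (fun k _ => hf _)).trans ?_
    rw [Finset.sum_const, Finset.card_univ, nsmul_eq_mul, Nat.card_eq_fintype_card]
    apply le_of_eq
    ring
  refine (abs_add_le _ _).trans ?_
  linarith

theorem avg_close {Y : Type} [MulAction G Y] (f : Y → ℝ) (i : ℕ) (y z : Y) (D : ℝ)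
    (h1 : |f (g i • y) - f (g i • z)| ≤ D) (h2 : |f ((g i)⁻¹ • y) - f ((g i)⁻¹ • z)| ≤ D)
    (h3 : ∀ k, |f (φ (m i) k • y) - f (φ (m i) k • z)| ≤ D) :
    |BB lev g m φ f i y - BB lev g m φ f i z| ≤ D := by
  have hf0 := hfin (m i)
  have hf' := Fintype.ofFinite {x : X // lev x ≤ m i}
  have h4 := card_pos' lev hfin m i
  unfold BB
  rw [finsum_eq_sum_of_fintype, finsum_eq_sum_of_fintype]
  have e : (f (g i • y) + f ((g i)⁻¹ • y)) / 4 +
      (∑ k : Equiv.Perm {x : X // lev x ≤ m i}, f (φ (m i) k • y)) /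
        (2 * Nat.card (Equiv.Perm {x : X // lev x ≤ m i})) -
      ((f (g i • z) + f ((g i)⁻¹ • z)) / 4 +
      (∑ k : Equiv.Perm {x : X // lev x ≤ m i}, f (φ (m i) k • z)) /
        (2 * Nat.card (Equiv.Perm {x : X // lev x ≤ m i}))) =
      ((f (g i • y) - f (g i • z)) + (f ((g i)⁻¹ • y) - f ((g i)⁻¹ • z))) / 4 +
      (∑ k : Equiv.Perm {x : X // lev x ≤ m i}, (f (φ (m i) k • y) - f (φ (m i) k • z))) /
        (2 * Nat.card (Equiv.Perm {x : X // lev x ≤ m i})) := by
    rw [Finset.sum_sub_distrib]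
    ring
  rw [e]
  have e1 : |((f (g i • y) - f (g i • z)) + (f ((g i)⁻¹ • y) - f ((g i)⁻¹ • z))) / 4| ≤ D / 2 := by
    rw [abs_le] at h1 h2 ⊢
    constructor <;> linarith
  have e2 : |(∑ k : Equiv.Perm {x : X // lev x ≤ m i}, (f (φ (m i) k • y) - f (φ (m i) k • z))) /
        (2 * Nat.card (Equiv.Perm {x : X // lev x ≤ m i}))| ≤ D / 2 := by
    rw [abs_div, abs_of_pos (by positivity : (0 : ℝ) <
      2 * Nat.card (Equiv.Perm {x : X // lev x ≤ m i})), div_le_iff₀ (by positivity)]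
    refine (Finset.abs_sum_le_sum_abs _ _).trans ?_
    refine (Finset.sum_le_sum (fun k _ => h3 k)).trans ?_
    rw [Finset.sum_const, Finset.card_univ, nsmul_eq_mul, Nat.card_eq_fintype_card]
    apply le_of_eq
    ring
  refine (abs_add_le _ _).trans ?_
  linarith

omit hfin in
theorem avg_close_eq {Y : Type} [MulAction G Y] (f : Y → ℝ) (i : ℕ) (y z : Y) (D : ℝ)
    (h1 : |f (g i • y) - f (g i • z)| ≤ D) (h2 : |f ((g i)⁻¹ • y) - f ((g i)⁻¹ • z)| ≤ D)
    (h3 : ∑ᶠ k, f (φ (m i) k • y) = ∑ᶠ k, f (φ (m i) k • z)) :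
    |BB lev g m φ f i y - BB lev g m φ f i z| ≤ D / 2 := by
  unfold BB
  rw [h3, add_sub_add_right_eq_sub]
  rw [abs_le] at h1 h2 ⊢
  constructor <;> linarith

end

/-- The general criterion. -/
theorem criterion {G : Type} [Group G] [Countable G] {X : Type} [DecidableEq X] [MulAction G X]
    (lev : X → ℕ) (hfin : ∀ j, Finite {x : X // lev x ≤ j})
    (hG : ∀ g : G, ∃ J, ∀ j, J ≤ j → ∀ x, lev x ≤ j → lev (g • x) ≤ j)
    (φ : ∀ j, Equiv.Perm {x : X // lev x ≤ j} →* G)
    (hφ : ∀ j k x, φ j k • x = Equiv.Perm.ofSubtype k x) :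
    ∃ μ : G → ℝ, (∀ x, 0 < μ x) ∧ (∀ x, μ x⁻¹ = μ x) ∧ HasSum μ 1 ∧
      ∀ (n : ℕ) (f : Set.powersetCard X n → ℝ), (∃ M, ∀ y, |f y| ≤ M) → Harmonic μ f →
        ∀ y z, f y = f z := by
  obtain ⟨g, hg⟩ := exists_surjective_nat G
  choose J hJ using hG
  let m : ℕ → ℕ := fun i => i + ∑ l ∈ Finset.range (i + 1), (J (g l) + J (g l)⁻¹)
  have hmJ : ∀ i l, l ≤ i → J (g l) + J (g l)⁻¹ ≤ m i := by
    intro i l hl
    have : J (g l) + J (g l)⁻¹ ≤ ∑ l ∈ Finset.range (i + 1), (J (g l) + J (g l)⁻¹) :=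
      Finset.single_le_sum (f := fun l => J (g l) + J (g l)⁻¹) (fun _ _ => Nat.zero_le _)
        (Finset.mem_range.mpr (by omega))
    exact this.trans (Nat.le_add_left _ _)
  have hmono : Monotone m := by
    intro i j hij
    refine add_le_add hij ?_
    exact Finset.sum_le_sum_of_subset (Finset.range_mono (by omega))
  have hmi : ∀ i, i ≤ m i := fun i => Nat.le_add_right _ _
  refine ⟨mu lev g m φ, mu_pos lev hfin g m φ hg, mu_inv lev g m φ, mu_hasSum lev hfin g m φ, ?_⟩
  rintro n f ⟨M, hf⟩ hharm y z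
  let Z : ℕ → Set (Set.powersetCard X n) := fun i => {E | ∀ x ∈ (E : Finset X), lev x ≤ m i}
  have hZ : Monotone Z := by
    intro i j hij E hE x hx
    exact (hE x hx).trans (hmono hij)
  have hZu : ∀ E, ∃ i, E ∈ Z i := by
    intro E
    refine ⟨(E : Finset X).sup lev, ?_⟩
    intro x hx
    exact (Finset.le_sup hx).trans (hmi _)
  -- elements preserving the levels preserve `Z i`
  have hpres : ∀ (x : G) i, (∀ a, lev a ≤ m i → lev (x • a) ≤ m i) → ∀ E ∈ Z i, x • E ∈ Z i := by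
    intro x i hx E hE a ha
    rw [Set.powersetCard.coe_smul] at ha
    obtain ⟨b, hb, rfl⟩ := Finset.mem_smul_finset.mp ha
    exact hx b (hE b hb)
  have hgl : ∀ i l, l ≤ i → ∀ E ∈ Z i, g l • E ∈ Z i := by
    intro i l hl
    exact hpres _ _ (hJ (g l) (m i) (le_trans (Nat.le_add_right _ _) (hmJ i l hl)))
  have hgl' : ∀ i l, l ≤ i → ∀ E ∈ Z i, (g l)⁻¹ • E ∈ Z i := by
    intro i l hl
    exact hpres _ _ (hJ (g l)⁻¹ (m i) (le_trans (Nat.le_add_left _ _) (hmJ i l hl)))
  have hkl : ∀ i l, l ≤ i → ∀ k, ∀ E ∈ Z i, φ (m l) k • E ∈ Z i := by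
    intro i l hl k
    refine hpres _ _ ?_
    intro a ha
    rw [hφ]
    by_cases h : lev a ≤ m l
    · rw [Equiv.Perm.ofSubtype_apply_of_mem k h]
      exact (k ⟨a, h⟩).2.trans (hmono hl)
    · rw [Equiv.Perm.ofSubtype_apply_of_not_mem k h]
      exact ha
  refine main_estimate f M hf Z hZ hZu (BB lev g m φ f)
    (harmonic_form lev hfin g m φ f M hf hharm) (fun i y => BB_bound lev hfin g m φ f M hf i y)
    ?_ ?_ y z
  · intro D i l hl hD E hE F hF
    refine avg_close lev hfin g m φ f l E F D ?_ ?_ ?_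
    · exact hD _ (hgl i l hl.le E hE) _ (hgl i l hl.le F hF)
    · exact hD _ (hgl' i l hl.le E hE) _ (hgl' i l hl.le F hF)
    · intro k
      exact hD _ (hkl i l hl.le k E hE) _ (hkl i l hl.le k F hF)
  · intro D i hD E hE F hF
    refine avg_close_eq lev g m φ f i E F D ?_ ?_ ?_
    · exact hD _ (hgl i i le_rfl E hE) _ (hgl i i le_rfl F hF)
    · exact hD _ (hgl' i i le_rfl E hE) _ (hgl' i i le_rfl F hF)
    · obtain ⟨τ, hτ⟩ := move_subsets (fun x => lev x ≤ m i) (F : Finset X) (E : Finset X)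
        hF hE (F.2.trans E.2.symm)
      have hτ' : φ (m i) τ • F = E := by
        apply Subtype.ext
        rw [Set.powersetCard.coe_smul, ← hτ]
        ext x
        simp only [Finset.mem_smul_finset, Finset.mem_image, hφ]
      rw [← hτ']
      have h5 : ∀ k : Equiv.Perm {x : X // lev x ≤ m i},
          f (φ (m i) k • φ (m i) τ • F) = f (φ (m i) (k * τ) • F) := by
        intro k
        rw [map_mul, mul_smul]
      simp only [h5]
      exact finsum_comp_equiv (Equiv.mulRight τ) (f := fun k => f (φ (m i) k • F))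

end Pool.Agent.W343.Liou
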